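import Mathlib

set_option autoImplicit false

/-!
MP_a46c6f_co, target (C), lemma P3', abstract part. A finite set with a symmetric relation (loops
allowed) in which every closed pair has a midpoint and every induced P4 is split by every vertex:
if there is an induced P4, there is one with loops 0110 and no bad vertex.
-/

namespace Pool.Agent.H80.P3

open Finset

variable {W : Type*} (R : W → W → Prop)

/-- induced path on four vertices -/
def P4 (a b c d : W) : Prop := R a b ∧ R b c ∧ R c d ∧ ¬ R a c ∧ ¬ R a d ∧ ¬ R b d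

/-- closed pairs have midpoints (or, for loops 1, disjoint rows); every vertex splits every P4 -/
structure Core : Prop where
  symm : ∀ x y, R x y → R y x
  p0 : ∀ u v, ¬ R u u → ¬ R v v → R u v → ∃ g, R g g ∧ R g u ∧ R g v ∧
    (∀ x, R u x → R v x → R g x) ∧ (∀ x, ¬ R u x → ¬ R v x → ¬ R g x)
  p1 : ∀ u v, R u u → R v v → ¬ R u v → (∃ g, ¬ R g g ∧ ¬ R g u ∧ ¬ R g v ∧
    (∀ x, R u x → R v x → R g x) ∧ (∀ x, ¬ R u x → ¬ R v x → ¬ R g x)) ∨
    (∀ x, R u x → ¬ R v x)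
  U : ∀ a b c d, P4 R a b c d → ∀ y, (R y a ∨ R y b ∨ R y c ∨ R y d) ∧
    (¬ R y a ∨ ¬ R y b ∨ ¬ R y c ∨ ¬ R y d)

/-- a P4-free set in which the closed pairs have midpoints -/
structure Good (Y : Finset W) : Prop where
  symm : ∀ x y, R x y → R y x
  p4 : ∀ a ∈ Y, ∀ b ∈ Y, ∀ c ∈ Y, ∀ d ∈ Y, ¬ P4 R a b c d
  i0 : ∀ u ∈ Y, ∀ v ∈ Y, ¬ R u u → ¬ R v v → R u v → ∃ g ∈ Y, R g g ∧ R g u ∧ R g v ∧
    (∀ x ∈ Y, R u x → R v x → R g x) ∧ (∀ x ∈ Y, ¬ R u x → ¬ R v x → ¬ R g x)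
  i1 : ∀ u ∈ Y, ∀ v ∈ Y, R u u → R v v → ¬ R u v → ∃ g ∈ Y, ¬ R g g ∧ ¬ R g u ∧ ¬ R g v ∧
    (∀ x ∈ Y, R u x → R v x → R g x) ∧ (∀ x ∈ Y, ¬ R u x → ¬ R v x → ¬ R g x)

variable {R}

open Classical in
lemma Good.pos {Y : Finset W} (h : Good R Y) {w : W} (hw : w ∈ Y) :
    Good R (Y.filter (fun x => R w x)) where
  symm := h.symm
  p4 := fun a ha b hb c hc d hd => h.p4 a (mem_filter.1 ha).1 b (mem_filter.1 hb).1 c
    (mem_filter.1 hc).1 d (mem_filter.1 hd).1
  i0 := by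
    intro u hu v hv h1 h2 h3
    rw [mem_filter] at hu hv
    obtain ⟨g, hg, g1, g2, g3, g4, g5⟩ := h.i0 u hu.1 v hv.1 h1 h2 h3
    exact ⟨g, mem_filter.2 ⟨hg, h.symm _ _ (g4 w hw (h.symm _ _ hu.2) (h.symm _ _ hv.2))⟩,
      g1, g2, g3, fun x hx => g4 x (mem_filter.1 hx).1, fun x hx => g5 x (mem_filter.1 hx).1⟩
  i1 := by
    intro u hu v hv h1 h2 h3
    rw [mem_filter] at hu hv
    obtain ⟨g, hg, g1, g2, g3, g4, g5⟩ := h.i1 u hu.1 v hv.1 h1 h2 h3
    exact ⟨g, mem_filter.2 ⟨hg, h.symm _ _ (g4 w hw (h.symm _ _ hu.2) (h.symm _ _ hv.2))⟩,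
      g1, g2, g3, fun x hx => g4 x (mem_filter.1 hx).1, fun x hx => g5 x (mem_filter.1 hx).1⟩

open Classical in
lemma Good.neg {Y : Finset W} (h : Good R Y) {w : W} (hw : w ∈ Y) :
    Good R (Y.filter (fun x => ¬ R w x)) where
  symm := h.symm
  p4 := fun a ha b hb c hc d hd => h.p4 a (mem_filter.1 ha).1 b (mem_filter.1 hb).1 c
    (mem_filter.1 hc).1 d (mem_filter.1 hd).1
  i0 := by
    intro u hu v hv h1 h2 h3
    rw [mem_filter] at hu hv
    obtain ⟨g, hg, g1, g2, g3, g4, g5⟩ := h.i0 u hu.1 v hv.1 h1 h2 h3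
    exact ⟨g, mem_filter.2 ⟨hg, fun h6 => g5 w hw (fun h7 => hu.2 (h.symm _ _ h7))
      (fun h7 => hv.2 (h.symm _ _ h7)) (h.symm _ _ h6)⟩,
      g1, g2, g3, fun x hx => g4 x (mem_filter.1 hx).1, fun x hx => g5 x (mem_filter.1 hx).1⟩
  i1 := by
    intro u hu v hv h1 h2 h3
    rw [mem_filter] at hu hv
    obtain ⟨g, hg, g1, g2, g3, g4, g5⟩ := h.i1 u hu.1 v hv.1 h1 h2 h3
    exact ⟨g, mem_filter.2 ⟨hg, fun h6 => g5 w hw (fun h7 => hu.2 (h.symm _ _ h7))
      (fun h7 => hv.2 (h.symm _ _ h7)) (h.symm _ _ h6)⟩,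
      g1, g2, g3, fun x hx => g4 x (mem_filter.1 hx).1, fun x hx => g5 x (mem_filter.1 hx).1⟩

open Classical in
/-- ROOT LEMMA -/
theorem root (n : ℕ) : ∀ Y : Finset W, Y.card = n → Good R Y → Y.Nonempty →
    (∃ r ∈ Y, ∀ x ∈ Y, ¬ R r x) ∨ (∃ r ∈ Y, ∀ x ∈ Y, R r x) := by
  induction n using Nat.strong_induction_on with
  | _ n ih =>
  intro Y hn h hne
  have up : ∀ w ∈ Y, ¬ R w w → (∃ x ∈ Y, R w x) →
      ∃ r ∈ Y, R r w ∧ R r r ∧ ∀ x ∈ Y, R w x → R r x := by
    intro w hw hww ⟨x, hx, hwx⟩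
    have hlt : (Y.filter (fun x => R w x)).card < n := by
      rw [← hn]
      exact card_lt_card (filter_ssubset.2 ⟨w, hw, hww⟩)
    rcases ih _ hlt _ rfl (h.pos hw) ⟨x, mem_filter.2 ⟨hx, hwx⟩⟩ with ⟨r, hr, h1⟩ | ⟨r, hr, h1⟩
    · exfalso
      have hr' := mem_filter.1 hr
      obtain ⟨g, hg, g1, g2, g3, g4, g5⟩ := h.i0 w hw r hr'.1 hww (h1 r hr) hr'.2
      exact h1 g (mem_filter.2 ⟨hg, h.symm _ _ g2⟩) (h.symm _ _ g3)
    · have hr' := mem_filter.1 hr
      exact ⟨r, hr'.1, h.symm _ _ hr'.2, h1 r hr, fun x hx hx' => h1 x (mem_filter.2 ⟨hx, hx'⟩)⟩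
  have down : ∀ w ∈ Y, R w w → (∃ x ∈ Y, ¬ R w x) →
      ∃ r ∈ Y, ¬ R r w ∧ ¬ R r r ∧ ∀ x ∈ Y, ¬ R w x → ¬ R r x := by
    intro w hw hww ⟨x, hx, hwx⟩
    have hlt : (Y.filter (fun x => ¬ R w x)).card < n := by
      rw [← hn]
      exact card_lt_card (filter_ssubset.2 ⟨w, hw, not_not.2 hww⟩)
    rcases ih _ hlt _ rfl (h.neg hw) ⟨x, mem_filter.2 ⟨hx, hwx⟩⟩ with ⟨r, hr, h1⟩ | ⟨r, hr, h1⟩
    · have hr' := mem_filter.1 hr
      exact ⟨r, hr'.1, fun h2 => hr'.2 (h.symm _ _ h2), h1 r hr,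
        fun x hx hx' => h1 x (mem_filter.2 ⟨hx, hx'⟩)⟩
    · exfalso
      have hr' := mem_filter.1 hr
      obtain ⟨g, hg, g1, g2, g3, g4, g5⟩ := h.i1 w hw r hr'.1 hww (h1 r hr) hr'.2
      exact g3 (h.symm _ _ (h1 g (mem_filter.2 ⟨hg, fun h2 => g2 (h.symm _ _ h2)⟩)))
  by_cases h1 : ∃ u ∈ Y, R u u
  · obtain ⟨u0, hu0, hu0'⟩ := h1
    obtain ⟨u, hu, hmax⟩ := exists_max_image (Y.filter (fun u => R u u))
      (fun u => (Y.filter (fun x => R u x)).card) ⟨u0, mem_filter.2 ⟨hu0, hu0'⟩⟩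
    obtain ⟨huY, huu⟩ := mem_filter.1 hu
    by_cases h2 : ∀ x ∈ Y, R u x
    · exact Or.inr ⟨u, huY, h2⟩
    push_neg at h2
    obtain ⟨r, hr, r1, r2, r3⟩ := down u huY huu h2
    by_cases h3 : ∀ x ∈ Y, ¬ R r x
    · exact Or.inl ⟨r, hr, h3⟩
    push_neg at h3
    obtain ⟨r', hr', s1, s2, s3⟩ := up r hr r2 h3
    have hur' : R u r' := by
      by_contra h4
      exact r3 r' hr' h4 (h.symm _ _ s1)
    have h5 : ∃ w ∈ Y, R u w ∧ ¬ R r' w := by
      by_contra h6
      push_neg at h6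
      have h7 : Y.filter (fun x => R u x) ⊂ Y.filter (fun x => R r' x) := by
        rw [ssubset_iff_of_subset]
        · exact ⟨r, mem_filter.2 ⟨hr, s1⟩, fun h8 => r1 (h.symm _ _ (mem_filter.1 h8).2)⟩
        · intro x hx
          obtain ⟨hx1, hx2⟩ := mem_filter.1 hx
          exact mem_filter.2 ⟨hx1, h6 x hx1 hx2⟩
      exact absurd (card_lt_card h7) (not_lt.2 (hmax r' (mem_filter.2 ⟨hr', s2⟩)))
    obtain ⟨w, hw, w1, w2⟩ := h5
    exact (h.p4 r hr r' hr' u huY w hw ⟨h.symm _ _ s1, h.symm _ _ hur', w1, r1,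
      fun h8 => w2 (s3 w hw h8), w2⟩).elim
  · push_neg at h1
    obtain ⟨w, hw⟩ := hne
    refine Or.inl ⟨w, hw, fun x hx hwx => ?_⟩
    obtain ⟨r, hr, _, r2, _⟩ := up w hw (h1 w hw) ⟨x, hx, hwx⟩
    exact h1 r hr r2

section core
variable [Fintype W]

open Classical in
/-- cylinder: adjacent to all of `P`, to none of `N` -/
noncomputable def cyl (R : W → W → Prop) (P N : List W) : Finset W :=
  univ.filter (fun x => (∀ p ∈ P, R p x) ∧ (∀ p ∈ N, ¬ R p x))

lemma mem_cyl {P N : List W} {x : W} :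
    x ∈ cyl R P N ↔ (∀ p ∈ P, R p x) ∧ (∀ p ∈ N, ¬ R p x) := by
  simp [cyl]

lemma Core.good (h : Core R) {P N : List W} {p : W} (hp : p ∈ P) : Good R (cyl R P N) where
  symm := h.symm
  p4 := by
    intro a ha b hb c hc d hd h4
    rw [mem_cyl] at ha hb hc hd
    have := (h.U a b c d h4 p).2
    have h1 := ha.1 p hp
    have h2 := hb.1 p hp
    have h3 := hc.1 p hp
    have h5 := hd.1 p hp
    tauto
  i0 := by
    intro u hu v hv h1 h2 h3
    rw [mem_cyl] at hu hv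
    obtain ⟨g, g1, g2, g3, g4, g5⟩ := h.p0 u v h1 h2 h3
    refine ⟨g, mem_cyl.2 ⟨fun q hq => ?_, fun q hq h6 => ?_⟩, g1, g2, g3, fun x _ => g4 x,
      fun x _ => g5 x⟩
    · exact h.symm _ _ (g4 q (h.symm _ _ (hu.1 q hq)) (h.symm _ _ (hv.1 q hq)))
    · exact g5 q (fun h7 => hu.2 q hq (h.symm _ _ h7)) (fun h7 => hv.2 q hq (h.symm _ _ h7))
        (h.symm _ _ h6)
  i1 := by
    intro u hu v hv h1 h2 h3
    rw [mem_cyl] at hu hv
    rcases h.p1 u v h1 h2 h3 with ⟨g, g1, g2, g3, g4, g5⟩ | h4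
    · refine ⟨g, mem_cyl.2 ⟨fun q hq => ?_, fun q hq h6 => ?_⟩, g1, g2, g3, fun x _ => g4 x,
        fun x _ => g5 x⟩
      · exact h.symm _ _ (g4 q (h.symm _ _ (hu.1 q hq)) (h.symm _ _ (hv.1 q hq)))
      · exact g5 q (fun h7 => hu.2 q hq (h.symm _ _ h7)) (fun h7 => hv.2 q hq (h.symm _ _ h7))
          (h.symm _ _ h6)
    · exact (h4 p (h.symm _ _ (hu.1 p hp)) (h.symm _ _ (hv.1 p hp))).elim

lemma Core.root (h : Core R) {P N : List W} {p : W} (hp : p ∈ P) {x : W} (hx : x ∈ cyl R P N) :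
    (∃ r ∈ cyl R P N, ∀ x ∈ cyl R P N, ¬ R r x) ∨ (∃ r ∈ cyl R P N, ∀ x ∈ cyl R P N, R r x) :=
  P3.root _ _ rfl (h.good hp) ⟨x, hx⟩

lemma Core.r1 (h : Core R) {w x : W} (hw : ¬ R w w) (hx : R w x) :
    ∃ s, R s s ∧ R s w ∧ ∀ y, R w y → R s y := by
  have hx' : x ∈ cyl R [w] [] := mem_cyl.2 (by simpa using hx)
  rcases h.root (p := w) (by simp) hx' with ⟨r, hr, h1⟩ | ⟨r, hr, h1⟩
  · exfalso
    have hwr : R w r := (mem_cyl.1 hr).1 w (by simp)
    obtain ⟨g, g1, g2, g3, g4, g5⟩ := h.p0 w r hw (h1 r hr) hwr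
    exact h1 g (mem_cyl.2 (by simpa using h.symm _ _ g2)) (h.symm _ _ g3)
  · have hwr : R w r := (mem_cyl.1 hr).1 w (by simp)
    exact ⟨r, h1 r hr, h.symm _ _ hwr, fun y hy => h1 y (mem_cyl.2 (by simpa using hy))⟩

/-- two complementary rows of loops 1 -/
lemma Core.star (h : Core R) {r c b q : W} (hr : R r r) (hcr : R c r) (hcb : R c b)
    (hrb : ¬ R r b) (hq : ∀ x, R q x ↔ ¬ R r x) : False := by
  have hb : b ∈ cyl R [c] [r] := mem_cyl.2 (by simpa using ⟨hcb, hrb⟩)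
  rcases h.root (p := c) (by simp) hb with ⟨k, hk, h1⟩ | ⟨k, hk, h1⟩
  · have hk' := mem_cyl.1 hk
    have hck : R c k := hk'.1 c (by simp)
    have hrk : ¬ R r k := hk'.2 r (by simp)
    obtain ⟨s, s1, s2, s3⟩ := h.r1 (h1 k hk) (h.symm _ _ hck)
    have hsc : R s c := s3 c (h.symm _ _ hck)
    have hsq : R s q := s3 q (h.symm _ _ ((hq k).2 hrk))
    have hrs : ¬ R r s := (hq s).1 (h.symm _ _ hsq)
    exact h1 s (mem_cyl.2 (by simpa using ⟨h.symm _ _ hsc, hrs⟩)) (h.symm _ _ s2)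
  · have hk' := mem_cyl.1 hk
    have hck : R c k := hk'.1 c (by simp)
    have hrk : ¬ R r k := hk'.2 r (by simp)
    rcases h.p1 k r (h1 k hk) hr (fun h2 => hrk (h.symm _ _ h2)) with
      ⟨g, g1, g2, g3, g4, g5⟩ | h4
    · have hgc : R g c := g4 c (h.symm _ _ hck) (h.symm _ _ hcr)
      exact g2 (h.symm _ _ (h1 g (mem_cyl.2 (by
        simpa using ⟨h.symm _ _ hgc, fun h5 => g3 (h.symm _ _ h5)⟩))))
    · exact h4 c (h.symm _ _ hck) (h.symm _ _ hcr)

/-- the complement of a row of loop 1 covered by two adjacent vertices is a row -/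
lemma Core.comp (h : Core R) {r a b : W} (hr : R r r) (hab : R a b) (hra : ¬ R r a)
    (hrb : ¬ R r b) (hcov : ∀ y, ¬ R r y → R y a ∨ R y b) : ∃ q, ∀ x, R q x ↔ ¬ R r x := by
  have hint : ∀ u v, ¬ R r u → ¬ R r v → R u u → R v v → ¬ R u v →
      ¬ (∀ x, R u x → ¬ R v x) := by
    intro u v hu hv huu hvv huv hd
    rcases hcov u hu with h1 | h1
    · have h2 := hd a h1
      have h3 : R v b := (hcov v hv).resolve_left h2
      have h4 : ¬ R u b := fun h5 => hd b h5 h3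
      have := (h.U u a b v ⟨h1, hab, h.symm _ _ h3, h4, huv, fun h5 => h2 (h.symm _ _ h5)⟩ r).1
      tauto
    · have h2 := hd b h1
      have h3 : R v a := (hcov v hv).resolve_right h2
      have h4 : ¬ R u a := fun h5 => hd a h5 h3
      have := (h.U u b a v ⟨h1, h.symm _ _ hab, h.symm _ _ h3, h4, huv,
        fun h5 => h2 (h.symm _ _ h5)⟩ r).1
      tauto
  have hG : Good R (cyl R [] [r]) := by
    refine ⟨h.symm, ?_, ?_, ?_⟩
    · intro a' ha b' hb c' hc d' hd h4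
      simp only [mem_cyl, List.mem_singleton, List.not_mem_nil, false_imp_iff, forall_eq,
        implies_true, true_and] at ha hb hc hd
      have := (h.U a' b' c' d' h4 r).1
      tauto
    · intro u hu v hv h1 h2 h3
      simp only [mem_cyl, List.mem_singleton, List.not_mem_nil, false_imp_iff, forall_eq,
        implies_true, true_and] at hu hv
      obtain ⟨g, g1, g2, g3, g4, g5⟩ := h.p0 u v h1 h2 h3
      refine ⟨g, ?_, g1, g2, g3, fun x _ => g4 x, fun x _ => g5 x⟩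
      simp only [mem_cyl, List.mem_singleton, List.not_mem_nil, false_imp_iff, forall_eq,
        implies_true, true_and]
      exact fun h6 => g5 r (fun h7 => hu (h.symm _ _ h7)) (fun h7 => hv (h.symm _ _ h7))
        (h.symm _ _ h6)
    · intro u hu v hv h1 h2 h3
      simp only [mem_cyl, List.mem_singleton, List.not_mem_nil, false_imp_iff, forall_eq,
        implies_true, true_and] at hu hv
      rcases h.p1 u v h1 h2 h3 with ⟨g, g1, g2, g3, g4, g5⟩ | h4
      · refine ⟨g, ?_, g1, g2, g3, fun x _ => g4 x, fun x _ => g5 x⟩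
        simp only [mem_cyl, List.mem_singleton, List.not_mem_nil, false_imp_iff, forall_eq,
          implies_true, true_and]
        exact fun h6 => g5 r (fun h7 => hu (h.symm _ _ h7)) (fun h7 => hv (h.symm _ _ h7))
          (h.symm _ _ h6)
      · exact (hint u v hu hv h1 h2 h3 h4).elim
  have hmem : ∀ x, x ∈ cyl R [] [r] ↔ ¬ R r x := by
    intro x
    simp [mem_cyl]
  rcases P3.root _ _ rfl hG ⟨a, (hmem a).2 hra⟩ with ⟨q, hq, h1⟩ | ⟨q, hq, h1⟩
  · exfalso
    rcases hcov q ((hmem q).1 hq) with h2 | h2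
    · exact h1 a ((hmem a).2 hra) h2
    · exact h1 b ((hmem b).2 hrb) h2
  · have hrq := (hmem q).1 hq
    rcases h.p1 q r (h1 q hq) hr (fun h2 => hrq (h.symm _ _ h2)) with
      ⟨g, g1, g2, g3, g4, g5⟩ | h4
    · exact (g2 (h.symm _ _ (h1 g ((hmem g).2 (fun h5 => g3 (h.symm _ _ h5)))))).elim
    · exact ⟨q, fun x => ⟨fun h2 => h4 x h2, fun h2 => h1 x ((hmem x).2 h2)⟩⟩

/-- (i-D) -/
lemma Core.iD (h : Core R) {a b c r : W} (hab : R a b) (hbc : R b c) (hac : ¬ R a c)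
    (hcr : R c r) (har : ¬ R a r) (hbr : ¬ R b r)
    (hD : ∀ x, R c x → ¬ R a x → ¬ R b x → R r x) : False := by
  have hr := hD r hcr har hbr
  obtain ⟨q, hq⟩ := h.comp hr hab (fun h1 => har (h.symm _ _ h1)) (fun h1 => hbr (h.symm _ _ h1))
    (by
      intro y hy
      by_contra h2
      push_neg at h2
      have := (h.U a b c r ⟨hab, hbc, hcr, hac, har, hbr⟩ y).1
      have h3 : ¬ R y r := fun h4 => hy (h.symm _ _ h4)
      have h4 : R y c := by tauto
      exact hy (hD y (h.symm _ _ h4) (fun h5 => h2.1 (h.symm _ _ h5))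
        (fun h5 => h2.2 (h.symm _ _ h5))))
  exact h.star hr hcr (h.symm _ _ hbc) (fun h1 => hbr (h.symm _ _ h1)) hq

/-- (i-B) -/
lemma Core.iB (h : Core R) {a c d r : W} (hcd : R c d) (hac : ¬ R a c) (had : ¬ R a d)
    (har : R a r) (hcr : R c r) (hdr : ¬ R d r)
    (hB : ∀ x, R a x → R c x → ¬ R d x → ¬ R r x) : False := by
  have hr := hB r har hcr hdr
  obtain ⟨s, s1, s2, s3⟩ := h.r1 hr (h.symm _ _ har)
  have hsa := s3 a (h.symm _ _ har)
  have hsc := s3 c (h.symm _ _ hcr)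
  have hds : R d s := by
    by_contra h1
    exact hB s (h.symm _ _ hsa) (h.symm _ _ hsc) h1 (h.symm _ _ s2)
  have := (h.U a r c d ⟨har, h.symm _ _ hcr, hcd, hac, had, fun h1 => hdr (h.symm _ _ h1)⟩ s).2
  have := h.symm _ _ hds
  tauto

/-- (ii-D) -/
lemma Core.iiD (h : Core R) {a b c d r x : W} (hab : R a b) (hbc : R b c) (hac : ¬ R a c)
    (hcd : R c d) (had : ¬ R a d) (hbd : ¬ R b d)
    (hcr : R c r) (har : ¬ R a r) (hbr : ¬ R b r)
    (hD : ∀ x, R c x → ¬ R a x → ¬ R b x → ¬ R r x) (hrx : R r x) (hdx : ¬ R d x) : False := by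
  have hrr := hD r hcr har hbr
  have hrd := hD d hcd had hbd
  have S : ∀ {x y}, R x y → R y x := fun {x y} h1 => h.symm x y h1
  have NS : ∀ {x y}, ¬ R x y → ¬ R y x := fun {x y} h1 h2 => h1 (h.symm y x h2)
  have tr : ∀ x, R r x → ¬ R d x → R a x ∧ R b x ∧ ¬ R c x := by
    intro x hrx hdx
    by_cases ha : R a x
    · by_cases hb : R b x
      · refine ⟨ha, hb, fun hc => ?_⟩
        have := (h.U a b c r ⟨hab, hbc, hcr, hac, har, hbr⟩ x).2
        have := S ha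
        have := S hb
        have := S hc
        have := S hrx
        tauto
      · exfalso
        have := (h.U b a x r ⟨S hab, ha, S hrx, hb, hbr, har⟩ d).1
        have := NS had
        have := NS hbd
        have := NS hrd
        tauto
    · by_cases hb : R b x
      · exfalso
        have := (h.U a b x r ⟨hab, hb, S hrx, ha, har, hbr⟩ d).1
        have := NS had
        have := NS hbd
        have := NS hrd
        tauto
      · exfalso
        by_cases hc : R c x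
        · exact hD x hc ha hb hrx
        · have := (h.U a b c d ⟨hab, hbc, hcd, hac, had, hbd⟩ x).1
          have := NS ha
          have := NS hb
          have := NS hc
          have := NS hdx
          tauto
  obtain ⟨s, s1, s2, s3⟩ := h.r1 hrr hrx
  have hsc := s3 c (S hcr)
  have hsx := s3 x hrx
  have hds : R d s := by
    by_contra h1
    exact (tr s (S s2) h1).2.2 (S hsc)
  have hcx := (tr x hrx hdx).2.2
  have := (h.U d c r x ⟨S hcd, hcr, hrx, NS hrd, hdx, hcx⟩ s).2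
  have := S hds
  tauto

/-- (ii-C) -/
lemma Core.iiC (h : Core R) {a b c d r x : W} (hab : R a b) (had : ¬ R a d) (hbd : ¬ R b d)
    (hbc : R b c) (hdc : R d c) (hac : ¬ R a c)
    (hbr : R b r) (hdr : R d r) (har : ¬ R a r)
    (hC : ∀ x, R b x → R d x → ¬ R a x → R r x) (hcx : R c x) (hrx : ¬ R r x) : False := by
  have hrr := hC r hbr hdr har
  have hrc := hC c hbc hdc hac
  have S : ∀ {x y}, R x y → R y x := fun {x y} h1 => h.symm x y h1
  have NS : ∀ {x y}, ¬ R x y → ¬ R y x := fun {x y} h1 h2 => h1 (h.symm y x h2)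
  have tr : ∀ x, R c x → ¬ R r x → R a x ∧ ¬ R b x ∧ ¬ R d x := by
    intro x hcx hrx
    by_cases hb : R b x
    · exfalso
      by_cases hd : R d x
      · by_cases ha : R a x
        · have := (h.U a b c d ⟨hab, hbc, S hdc, hac, had, hbd⟩ x).2
          have := S ha
          have := S hb
          have := S hcx
          have := S hd
          tauto
        · exact hrx (hC x hb hd ha)
      · have := (h.U d r b x ⟨hdr, S hbr, hb, NS hbd, hd, hrx⟩ c).2
        have := S hdc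
        have := S hrc
        have := S hbc
        tauto
    · by_cases hd : R d x
      · exfalso
        have := (h.U b r d x ⟨hbr, S hdr, hd, hbd, hb, hrx⟩ c).2
        have := S hdc
        have := S hrc
        have := S hbc
        tauto
      · refine ⟨?_, hb, hd⟩
        by_contra ha
        have := (h.U a b r d ⟨hab, hbr, S hdr, har, had, hbd⟩ x).1
        have := NS ha
        have := NS hb
        have := NS hd
        have := NS hrx
        tauto
  have hax := (tr x hcx hrx).1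
  obtain ⟨q, hq⟩ := h.comp hrr hax (NS har) hrx (by
    intro y hy
    by_contra h2
    push_neg at h2
    have := (h.U r c x a ⟨hrc, hcx, S hax, hrx, NS har, NS hac⟩ y).1
    have h3 := NS hy
    have h4 : R y c := by tauto
    exact h2.1 (S (tr y (S h4) hy).1))
  exact h.star hrr (S hrc) hcx hrx hq

end core

end Pool.Agent.H80.P3
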