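import Mathlib
import Pool.Agent.H80.P3.Core

set_option autoImplicit false

/-!
MP_a46c6f_co, target (C): lemma P3'. `M` a symmetric 0/1 matrix on a finite set in which every closed
pair has a midpoint; if there is an induced P4, there is one with loops 0110 which is not split by a
bad vertex that agrees with it wherever its four rows agree.
-/

namespace Pool.Agent.H80.P3

open Finset

section core
variable {W : Type*} {R : W → W → Prop}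

lemma P4.rev (hs : ∀ x y, R x y → R y x) {a b c d : W} (h : P4 R a b c d) : P4 R d c b a :=
  ⟨hs _ _ h.2.2.1, hs _ _ h.2.1, hs _ _ h.1, fun h1 => h.2.2.2.2.2 (hs _ _ h1),
    fun h1 => h.2.2.2.2.1 (hs _ _ h1), fun h1 => h.2.2.2.1 (hs _ _ h1)⟩

variable [Fintype W]

open Classical in
/-- degree (loops count once) -/
noncomputable def deg (R : W → W → Prop) (x : W) : ℕ := (univ.filter (fun y => R x y)).card

lemma deg_eq {x y : W} (h : ∀ z, R x z → R y z) (h' : deg R y ≤ deg R x) : ∀ z, R y z → R x z := by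
  classical
  have h1 : univ.filter (fun z => R x z) ⊆ univ.filter (fun z => R y z) := by
    intro z hz
    rw [mem_filter] at hz ⊢
    exact ⟨hz.1, h z hz.2⟩
  have h2 := eq_of_subset_of_card_le h1 (by
    unfold deg at h'
    convert h')
  intro z hz
  have : z ∈ univ.filter (fun z => R y z) := mem_filter.2 ⟨mem_univ _, hz⟩
  rw [← h2] at this
  exact (mem_filter.1 this).2

lemma Core.dStep (h : Core R) {a b c d : W} (h4 : P4 R a b c d)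
    (hmin : ∀ d', P4 R a b c d' → deg R d ≤ deg R d') :
    ∀ x, R c x → ¬ R a x → ¬ R b x → ¬ R d x := by
  obtain ⟨hab, hbc, hcd, hac, had, hbd⟩ := h4
  have hd : d ∈ cyl R [c] [a, b] := mem_cyl.2 (by simpa using ⟨hcd, had, hbd⟩)
  rcases h.root (p := c) (by simp) hd with ⟨r, hr, h1⟩ | ⟨r, hr, h1⟩
  · have hr' : R c r ∧ ¬ R a r ∧ ¬ R b r := by simpa using mem_cyl.1 hr
    obtain ⟨hcr, har, hbr⟩ := hr'
    have h1' : ∀ x, R c x → ¬ R a x → ¬ R b x → ¬ R r x :=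
      fun x h2 h3 h5 => h1 x (mem_cyl.2 (by simpa using ⟨h2, h3, h5⟩))
    have hsub : ∀ x, R r x → R d x := by
      intro x hx
      by_contra h2
      exact h.iiD hab hbc hac hcd had hbd hcr har hbr h1' hx h2
    have hle := hmin r ⟨hab, hbc, hcr, hac, har, hbr⟩
    intro x h2 h3 h5 h6
    exact h1' x h2 h3 h5 (deg_eq hsub hle x h6)
  · exfalso
    have hr' : R c r ∧ ¬ R a r ∧ ¬ R b r := by simpa using mem_cyl.1 hr
    exact h.iD hab hbc hac hr'.1 hr'.2.1 hr'.2.2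
      (fun x h2 h3 h5 => h1 x (mem_cyl.2 (by simpa using ⟨h2, h3, h5⟩)))

lemma Core.cStep (h : Core R) {a b c d : W} (h4 : P4 R a b c d)
    (hmax : ∀ c', P4 R a b c' d → deg R c' ≤ deg R c) :
    ∀ x, R b x → R d x → ¬ R a x → R c x := by
  obtain ⟨hab, hbc, hcd, hac, had, hbd⟩ := h4
  have S : ∀ {x y}, R x y → R y x := fun {x y} h1 => h.symm x y h1
  have NS : ∀ {x y}, ¬ R x y → ¬ R y x := fun {x y} h1 h2 => h1 (h.symm y x h2)
  have hc : c ∈ cyl R [b, d] [a] := mem_cyl.2 (by simpa using ⟨⟨hbc, S hcd⟩, hac⟩)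
  rcases h.root (p := b) (by simp) hc with ⟨r, hr, h1⟩ | ⟨r, hr, h1⟩
  · exfalso
    have hr' : (R b r ∧ R d r) ∧ ¬ R a r := by simpa using mem_cyl.1 hr
    exact h.iB (a := d) (c := b) (d := a) (S hab) (NS hbd) (NS had) hr'.1.2 hr'.1.1 hr'.2
      (fun x h2 h3 h5 => h1 x (mem_cyl.2 (by simpa using ⟨⟨h3, h2⟩, h5⟩)))
  · have hr' : (R b r ∧ R d r) ∧ ¬ R a r := by simpa using mem_cyl.1 hr
    obtain ⟨⟨hbr, hdr⟩, har⟩ := hr'
    have h1' : ∀ x, R b x → R d x → ¬ R a x → R r x :=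
      fun x h2 h3 h5 => h1 x (mem_cyl.2 (by simpa using ⟨⟨h2, h3⟩, h5⟩))
    have hsub : ∀ x, R c x → R r x := by
      intro x hx
      by_contra h2
      exact h.iiC hab had hbd hbc (S hcd) hac hbr hdr har h1' hx h2
    have hle := hmax r ⟨hab, hbr, S hdr, har, had, hbd⟩
    intro x h2 h3 h5
    exact deg_eq hsub hle x (h1' x h2 h3 h5)

/-- a vertex outside all the bad types -/
def NotBad (R : W → W → Prop) (a b c d w : W) : Prop :=
  ¬ (R w a ∧ R w b ∧ ¬ R w c ∧ ¬ R w d) ∧ ¬ (¬ R w a ∧ ¬ R w b ∧ R w c ∧ R w d) ∧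
  ¬ (R w a ∧ ¬ R w b ∧ R w c ∧ ¬ R w d) ∧ ¬ (¬ R w a ∧ R w b ∧ ¬ R w c ∧ R w d)

theorem Core.main (h : Core R) {a0 b0 c0 d0 : W} (h0 : P4 R a0 b0 c0 d0) :
    ∃ a b c d, P4 R a b c d ∧ ¬ R a a ∧ R b b ∧ R c c ∧ ¬ R d d ∧ ∀ w, NotBad R a b c d w := by
  classical
  obtain ⟨⟨a, b, c, d⟩, hq, hmin⟩ := exists_min_image
    ((univ : Finset (W × W × W × W)).filter (fun q => P4 R q.1 q.2.1 q.2.2.1 q.2.2.2))
    (fun q => (deg R q.1 : ℤ) + deg R q.2.2.2 - deg R q.2.1 - deg R q.2.2.1)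
    ⟨(a0, b0, c0, d0), mem_filter.2 ⟨mem_univ _, h0⟩⟩
  have h4 : P4 R a b c d := (mem_filter.1 hq).2
  have hm : ∀ a' b' c' d', P4 R a' b' c' d' →
      (deg R a : ℤ) + deg R d - deg R b - deg R c ≤ deg R a' + deg R d' - deg R b' - deg R c' :=
    fun a' b' c' d' h' => hmin (a', b', c', d') (mem_filter.2 ⟨mem_univ _, h'⟩)
  have hD := h.dStep h4 (fun d' h' => by have := hm _ _ _ _ h'; omega)
  have hC := h.cStep h4 (fun c' h' => by have := hm _ _ _ _ h'; omega)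
  have hA := h.dStep (h4.rev h.symm) (fun a' h' => by
    have := hm _ _ _ _ (h'.rev h.symm); omega)
  have hB := h.cStep (h4.rev h.symm) (fun b' h' => by
    have := hm _ _ _ _ (h'.rev h.symm); omega)
  have h4' := h4
  obtain ⟨hab, hbc, hcd, hac, had, hbd⟩ := h4'
  have S : ∀ {x y}, R x y → R y x := fun {x y} h1 => h.symm x y h1
  have NS : ∀ {x y}, ¬ R x y → ¬ R y x := fun {x y} h1 h2 => h1 (h.symm y x h2)
  refine ⟨a, b, c, d, h4, hA a (S hab) (NS had) (NS hac), hB b (S hbc) hab (NS hbd),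
    hC c hbc (S hcd) hac, hD d hcd had hbd, ?_⟩
  intro w
  refine ⟨fun hw => ?_, fun hw => ?_, fun hw => ?_, fun hw => ?_⟩
  · exact hA w (S hw.2.1) (NS hw.2.2.2) (NS hw.2.2.1) (S hw.1)
  · exact hD w (S hw.2.2.1) (NS hw.1) (NS hw.2.1) (S hw.2.2.2)
  · exact hw.2.1 (S (hB w (S hw.2.2.1) (S hw.1) (NS hw.2.2.2)))
  · exact hw.2.2.1 (S (hC w (S hw.2.1) (S hw.2.2.2) (NS hw.1)))

end core

section wrap
variable {V : Type*} [Fintype V]

/-- the statement for a set `C` without a full vertex -/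
theorem cyl_case (R : V → V → Prop) (C : Finset V) (hs : ∀ x y, R x y → R y x)
    (p0 : ∀ u ∈ C, ∀ v ∈ C, ¬ R u u → ¬ R v v → R u v → ∃ g ∈ C, R g g ∧ R g u ∧ R g v ∧
      (∀ x ∈ C, R u x → R v x → R g x) ∧ (∀ x ∈ C, ¬ R u x → ¬ R v x → ¬ R g x))
    (p1 : ∀ u ∈ C, ∀ v ∈ C, R u u → R v v → ¬ R u v → ∃ g ∈ C, ¬ R g g ∧ ¬ R g u ∧ ¬ R g v ∧
      (∀ x ∈ C, R u x → R v x → R g x) ∧ (∀ x ∈ C, ¬ R u x → ¬ R v x → ¬ R g x))
    (U : ∀ y ∈ C, (∃ x ∈ C, R y x) → (∃ x ∈ C, ¬ R y x) → ∀ a ∈ C, ∀ b ∈ C, ∀ c ∈ C, ∀ d ∈ C,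
      P4 R a b c d → (R y a ∨ R y b ∨ R y c ∨ R y d) ∧ (¬ R y a ∨ ¬ R y b ∨ ¬ R y c ∨ ¬ R y d))
    (nofull : ∀ y ∈ C, ∃ x ∈ C, ¬ R y x)
    {a0 b0 c0 d0 : V} (ha0 : a0 ∈ C) (hb0 : b0 ∈ C) (hc0 : c0 ∈ C) (hd0 : d0 ∈ C)
    (h0 : P4 R a0 b0 c0 d0) :
    ∃ a ∈ C, ∃ b ∈ C, ∃ c ∈ C, ∃ d ∈ C, P4 R a b c d ∧ ¬ R a a ∧ R b b ∧ R c c ∧ ¬ R d d ∧
      ∀ w ∈ C, NotBad R a b c d w := by
  classical
  let W := {x : V // x ∈ C ∧ (∃ y ∈ C, R x y) ∧ (∃ y ∈ C, ¬ R x y)}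
  let R' : W → W → Prop := fun x y => R x.1 y.1
  have hcore : Core R' := by
    refine ⟨fun x y => hs x.1 y.1, ?_, ?_, ?_⟩
    · intro u v h1 h2 h3
      obtain ⟨g, hg, g1, g2, g3, g4, g5⟩ := p0 u.1 u.2.1 v.1 v.2.1 h1 h2 h3
      exact ⟨⟨g, hg, ⟨g, hg, g1⟩, nofull g hg⟩, g1, g2, g3, fun x => g4 x.1 x.2.1,
        fun x => g5 x.1 x.2.1⟩
    · intro u v h1 h2 h3
      obtain ⟨g, hg, g1, g2, g3, g4, g5⟩ := p1 u.1 u.2.1 v.1 v.2.1 h1 h2 h3
      by_cases h4 : ∃ y ∈ C, R g y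
      · exact Or.inl ⟨⟨g, hg, h4, ⟨g, hg, g1⟩⟩, g1, g2, g3, fun x => g4 x.1 x.2.1,
          fun x => g5 x.1 x.2.1⟩
      · exact Or.inr (fun x h5 h6 => h4 ⟨x.1, x.2.1, g4 x.1 x.2.1 h5 h6⟩)
    · intro a b c d h4 y
      exact U y.1 y.2.1 y.2.2.1 y.2.2.2 a.1 a.2.1 b.1 b.2.1 c.1 c.2.1 d.1 d.2.1 h4
  have h0' := h0
  obtain ⟨hab, hbc, hcd, hac, had, hbd⟩ := h0'
  have NS : ∀ {x y}, ¬ R x y → ¬ R y x := fun {x y} h1 h2 => h1 (hs y x h2)
  obtain ⟨a, b, c, d, h1, h2, h3, h4, h5, h6⟩ := hcore.main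
    (a0 := ⟨a0, ha0, ⟨b0, hb0, hab⟩, ⟨c0, hc0, hac⟩⟩)
    (b0 := ⟨b0, hb0, ⟨c0, hc0, hbc⟩, ⟨d0, hd0, hbd⟩⟩)
    (c0 := ⟨c0, hc0, ⟨d0, hd0, hcd⟩, ⟨a0, ha0, NS hac⟩⟩)
    (d0 := ⟨d0, hd0, ⟨c0, hc0, hs _ _ hcd⟩, ⟨a0, ha0, NS had⟩⟩) h0
  refine ⟨a.1, a.2.1, b.1, b.2.1, c.1, c.2.1, d.1, d.2.1, h1, h2, h3, h4, h5, ?_⟩
  intro w hw
  by_cases h7 : (∃ y ∈ C, R w y) ∧ (∃ y ∈ C, ¬ R w y)
  · exact h6 ⟨w, hw, h7.1, h7.2⟩
  · refine ⟨fun h8 => h7 ?_, fun h8 => h7 ?_, fun h8 => h7 ?_, fun h8 => h7 ?_⟩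
    · exact ⟨⟨a.1, a.2.1, h8.1⟩, ⟨c.1, c.2.1, h8.2.2.1⟩⟩
    · exact ⟨⟨c.1, c.2.1, h8.2.2.1⟩, ⟨a.1, a.2.1, h8.1⟩⟩
    · exact ⟨⟨a.1, a.2.1, h8.1⟩, ⟨b.1, b.2.1, h8.2.1⟩⟩
    · exact ⟨⟨b.1, b.2.1, h8.2.1⟩, ⟨a.1, a.2.1, h8.1⟩⟩

/-- closed pairs have midpoints -/
def Pairs (M : V → V → ZMod 2) : Prop :=
  ∀ u v, M u u = M v v → M u v ≠ M u u → ∃ g, M g g ≠ M u u ∧ M g u = M g g ∧ M g v = M g g ∧
    ∀ x, M u x = M v x → M g x = M u x

lemma z2 (a : ZMod 2) (h : a ≠ 1) : a = 0 := by revert a; decide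

lemma z2' (a : ZMod 2) (h : a ≠ 0) : a = 1 := by revert a; decide

/-- cylinder -/
def IsCyl (M : V → V → ZMod 2) (C : Finset V) : Prop :=
  ∃ A : Finset (V × ZMod 2), ∀ y, y ∈ C ↔ ∀ q ∈ A, M y q.1 = q.2

theorem p3 (M : V → V → ZMod 2) (symm : ∀ x y, M x y = M y x) (hp : Pairs M)
    (hex : ∃ a b c d, P4 (fun x y => M x y = 1) a b c d) :
    ∃ a b c d, P4 (fun x y => M x y = 1) a b c d ∧ M a a = 0 ∧ M b b = 1 ∧ M c c = 1 ∧
      M d d = 0 ∧ ∀ w, (∀ y, M a y = M b y → M b y = M c y → M c y = M d y → M w y = M a y) →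
        NotBad (fun x y => M x y = 1) a b c d w := by
  classical
  set R : V → V → Prop := fun x y => M x y = 1 with hR
  have hs : ∀ x y, R x y → R y x := fun x y h => by
    show M y x = 1
    rw [symm]; exact h
  obtain ⟨a0, b0, c0, d0, h0⟩ := hex
  obtain ⟨C, hC, hmin⟩ := exists_min_image
    ((univ : Finset (Finset V)).filter (fun C => IsCyl M C ∧
      ∃ a ∈ C, ∃ b ∈ C, ∃ c ∈ C, ∃ d ∈ C, P4 R a b c d)) (fun C => C.card)
    ⟨univ, mem_filter.2 ⟨mem_univ _, ⟨∅, by simp⟩, a0, mem_univ _, b0, mem_univ _, c0, mem_univ _,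
      d0, mem_univ _, h0⟩⟩
  obtain ⟨_, ⟨A, hA⟩, a1, ha1, b1, hb1, c1, hc1, d1, hd1, h1⟩ := mem_filter.1 hC
  have hmin' : ∀ C' : Finset V, IsCyl M C' → C'.card < C.card →
      ∀ a ∈ C', ∀ b ∈ C', ∀ c ∈ C', ∀ d ∈ C', ¬ P4 R a b c d := by
    intro C' hC' hlt a ha b hb c hc d hd h4
    exact absurd (hmin C' (mem_filter.2 ⟨mem_univ _, hC', a, ha, b, hb, c, hc, d, hd, h4⟩))
      (not_le.2 hlt)
  -- splitting
  have U : ∀ y ∈ C, (∃ x ∈ C, R y x) → (∃ x ∈ C, ¬ R y x) → ∀ a ∈ C, ∀ b ∈ C, ∀ c ∈ C, ∀ d ∈ C,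
      P4 R a b c d → (R y a ∨ R y b ∨ R y c ∨ R y d) ∧
        (¬ R y a ∨ ¬ R y b ∨ ¬ R y c ∨ ¬ R y d) := by
    intro y hy ⟨x, hx, hx1⟩ ⟨x', hx', hx1'⟩ a ha b hb c hc d hd h4
    constructor
    · by_contra hcon
      push_neg at hcon
      refine hmin' (C.filter (fun z => M z y = 0)) ⟨insert (y, 0) A, ?_⟩ ?_
        a ?_ b ?_ c ?_ d ?_ h4
      · intro z
        rw [mem_filter, hA z]
        simp only [mem_insert, forall_eq_or_imp]
        exact and_comm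
      · refine card_lt_card (filter_ssubset.2 ⟨x, hx, fun h5 => ?_⟩)
        have : M y x = 1 := hx1
        rw [symm, h5] at this
        exact absurd this (by decide)
      · exact mem_filter.2 ⟨ha, by rw [symm]; exact z2 _ hcon.1⟩
      · exact mem_filter.2 ⟨hb, by rw [symm]; exact z2 _ hcon.2.1⟩
      · exact mem_filter.2 ⟨hc, by rw [symm]; exact z2 _ hcon.2.2.1⟩
      · exact mem_filter.2 ⟨hd, by rw [symm]; exact z2 _ hcon.2.2.2⟩
    · by_contra hcon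
      push_neg at hcon
      refine hmin' (C.filter (fun z => M z y = 1)) ⟨insert (y, 1) A, ?_⟩ ?_
        a ?_ b ?_ c ?_ d ?_ h4
      · intro z
        rw [mem_filter, hA z]
        simp only [mem_insert, forall_eq_or_imp]
        exact and_comm
      · refine card_lt_card (filter_ssubset.2 ⟨x', hx', fun h5 => ?_⟩)
        exact hx1' (by show M y x' = 1; rw [symm]; exact h5)
      · exact mem_filter.2 ⟨ha, hs _ _ hcon.1⟩
      · exact mem_filter.2 ⟨hb, hs _ _ hcon.2.1⟩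
      · exact mem_filter.2 ⟨hc, hs _ _ hcon.2.2.1⟩
      · exact mem_filter.2 ⟨hd, hs _ _ hcon.2.2.2⟩
  have q0 : ∀ u ∈ C, ∀ v ∈ C, ¬ R u u → ¬ R v v → R u v → ∃ g ∈ C, R g g ∧ R g u ∧ R g v ∧
      (∀ x ∈ C, R u x → R v x → R g x) ∧ (∀ x ∈ C, ¬ R u x → ¬ R v x → ¬ R g x) := by
    intro u hu v hv h2 h3 h4
    have e1 := z2 _ h2
    have e2 := z2 _ h3
    obtain ⟨g, g1, g2, g3, g4⟩ := hp u v (by rw [e1, e2]) (by
      rw [e1, show M u v = 1 from h4]; decide)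
    rw [e1] at g1
    have e3 := z2' _ g1
    refine ⟨g, (hA g).2 (fun q hq => ?_), e3, by rw [hR]; simp only; rw [g2, e3],
      by rw [hR]; simp only; rw [g3, e3], ?_, ?_⟩
    · rw [g4 q.1 (by rw [(hA u).1 hu q hq, (hA v).1 hv q hq])]
      exact (hA u).1 hu q hq
    · intro x _ h5 h6
      show M g x = 1
      rw [g4 x (by rw [show M u x = 1 from h5, show M v x = 1 from h6])]
      exact h5
    · intro x _ h5 h6 h7
      have h8 : M g x = 1 := h7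
      rw [g4 x (by rw [z2 _ h5, z2 _ h6])] at h8
      exact h5 h8
  have q1 : ∀ u ∈ C, ∀ v ∈ C, R u u → R v v → ¬ R u v → ∃ g ∈ C, ¬ R g g ∧ ¬ R g u ∧ ¬ R g v ∧
      (∀ x ∈ C, R u x → R v x → R g x) ∧ (∀ x ∈ C, ¬ R u x → ¬ R v x → ¬ R g x) := by
    intro u hu v hv h2 h3 h4
    have e1 : M u u = 1 := h2
    have e2 : M v v = 1 := h3
    obtain ⟨g, g1, g2, g3, g4⟩ := hp u v (by rw [e1, e2]) (by
      rw [e1, z2 _ h4]; decide)
    rw [e1] at g1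
    refine ⟨g, (hA g).2 (fun q hq => ?_), g1, fun h5 => g1 (by rw [← g2]; exact h5),
      fun h5 => g1 (by rw [← g3]; exact h5), ?_, ?_⟩
    · rw [g4 q.1 (by rw [(hA u).1 hu q hq, (hA v).1 hv q hq])]
      exact (hA u).1 hu q hq
    · intro x _ h5 h6
      show M g x = 1
      rw [g4 x (by rw [show M u x = 1 from h5, show M v x = 1 from h6])]
      exact h5
    · intro x _ h5 h6 h7
      have h8 : M g x = 1 := h7
      rw [g4 x (by rw [z2 _ h5, z2 _ h6])] at h8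
      exact h5 h8
  have fin : ∀ a ∈ C, ∀ b ∈ C, ∀ c ∈ C, ∀ d ∈ C, (∀ w ∈ C, NotBad R a b c d w) → ∀ w,
      (∀ y, M a y = M b y → M b y = M c y → M c y = M d y → M w y = M a y) →
        NotBad R a b c d w := by
    intro a ha b hb c hc d hd h2 w h3
    refine h2 w ((hA w).2 (fun q hq => ?_))
    have ea := (hA a).1 ha q hq
    have eb := (hA b).1 hb q hq
    have ec := (hA c).1 hc q hq
    have ed := (hA d).1 hd q hq
    rw [h3 q.1 (by rw [ea, eb]) (by rw [eb, ec]) (by rw [ec, ed])]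
    exact ea
  by_cases hfull : ∀ y ∈ C, ∃ x ∈ C, ¬ R y x
  · obtain ⟨a, ha, b, hb, c, hc, d, hd, k1, k2, k3, k4, k5, k6⟩ :=
      cyl_case R C hs q0 q1 U hfull ha1 hb1 hc1 hd1 h1
    exact ⟨a, b, c, d, k1, z2 _ k2, k3, k4, z2 _ k5, fin a ha b hb c hc d hd k6⟩
  · push_neg at hfull
    obtain ⟨s, hsC, hsf⟩ := hfull
    have hrev : P4 (fun x y => ¬ R x y) b1 d1 a1 c1 := by
      obtain ⟨hab, hbc, hcd, hac, had, hbd⟩ := h1
      exact ⟨hbd, fun h => had (hs _ _ h), hac, fun h => h (hs _ _ hab), fun h => h hbc,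
        fun h => h (hs _ _ hcd)⟩
    obtain ⟨a, ha, b, hb, c, hc, d, hd, k1, k2, k3, k4, k5, k6⟩ :=
      cyl_case (fun x y => ¬ R x y) C (fun x y h h' => h (hs _ _ h'))
        (by
          intro u hu v hv h2 h3 h4
          obtain ⟨g, hg, g1, g2, g3, g4, g5⟩ := q1 u hu v hv (not_not.1 h2) (not_not.1 h3) h4
          exact ⟨g, hg, g1, g2, g3, g5, fun x hx h5 h6 =>
            not_not.2 (g4 x hx (not_not.1 h5) (not_not.1 h6))⟩)
        (by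
          intro u hu v hv h2 h3 h4
          obtain ⟨g, hg, g1, g2, g3, g4, g5⟩ := q0 u hu v hv h2 h3 (not_not.1 h4)
          exact ⟨g, hg, not_not.2 g1, not_not.2 g2, not_not.2 g3, g5, fun x hx h5 h6 =>
            not_not.2 (g4 x hx (not_not.1 h5) (not_not.1 h6))⟩)
        (by
          intro y hy h2 h3 a ha b hb c hc d hd h4
          obtain ⟨x, hx, hx'⟩ := h3
          have h5 := U y hy ⟨x, hx, not_not.1 hx'⟩ h2 b hb d hd a ha c hc (by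
            obtain ⟨hab, hbc, hcd, hac, had, hbd⟩ := h4
            refine ⟨not_not.1 hbd, ?_, not_not.1 hac, ?_, hbc, ?_⟩
            · exact hs _ _ (not_not.1 had)
            · exact fun h => hab (hs _ _ h)
            · exact fun h => hcd (hs _ _ h))
          tauto)
        (fun y hy => ⟨s, hsC, not_not.2 (hs _ _ (hsf y hy))⟩) hb1 hd1 ha1 hc1 hrev
    refine ⟨b, d, a, c, ?_, ?_, ?_, ?_, ?_, fin b hb d hd a ha c hc ?_⟩
    · obtain ⟨hab, hbc, hcd, hac, had, hbd⟩ := k1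
      exact ⟨not_not.1 hbd, hs _ _ (not_not.1 had), not_not.1 hac,
        fun h => hab (hs _ _ h), hbc, fun h => hcd (hs _ _ h)⟩
    · exact z2 _ k3
    · exact not_not.1 k5
    · exact not_not.1 k2
    · exact z2 _ k4
    · intro w hw
      have := k6 w hw
      unfold NotBad at this ⊢
      tauto

end wrap

end Pool.Agent.H80.P3
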